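import Pool.Agent.H34PG.Core

/-!
The antisymmetric (or symmetric) extension of a sign function and its base cases
(project PG, helper34).
-/

namespace Pool.Agent.H34PG

/-- The extension of `f` from `(0,q/2)` to all residues with `F(-x) = σ F(x)`. -/
def FF (q : ℕ) (f : ℕ → ℤ) (σ : ℤ) (x : ZMod q) : ℤ :=
  if 2 * x.val < q then f x.val else σ * f (q - x.val)

section base

variable {q : ℕ} [hq : Fact q.Prime] {f : ℕ → ℤ} {σ : ℤ}

lemma odd_of_five (h5 : 5 ≤ q) : q % 2 = 1 := by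
  rcases hq.out.eq_two_or_odd with h2 | h2
  · omega
  · exact h2

lemma FF_small {n : ℕ} (h : 2 * n < q) : FF q f σ (n : ZMod q) = f n := by
  unfold FF
  rw [ZMod.val_cast_of_lt (by omega), if_pos h]

lemma FF_big {n : ℕ} (h1 : n < q) (h2 : q < 2 * n) : FF q f σ (n : ZMod q) = σ * f (q - n) := by
  unfold FF
  rw [ZMod.val_cast_of_lt h1, if_neg (by omega)]

lemma val_pos {x : ZMod q} (hx : x ≠ 0) : 0 < x.val := by
  rcases Nat.eq_zero_or_pos x.val with h0 | h0
  · exact absurd ((ZMod.val_eq_zero x).mp h0) hx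
  · exact h0

lemma FF_neg (h5 : 5 ≤ q) (hσ : σ = 1 ∨ σ = -1) {x : ZMod q} (hx : x ≠ 0) :
    FF q f σ (-x) = σ * FF q f σ x := by
  have hodd := odd_of_five (q := q) h5
  have h1 := ZMod.val_lt x
  have h0 := val_pos hx
  have h2 : (-x).val = q - x.val := by
    rw [ZMod.neg_val, if_neg hx]
  unfold FF
  rw [h2]
  rcases Nat.lt_or_ge (2 * x.val) q with h | h
  · rw [if_neg (by omega), if_pos h]
    congr 2
    omega
  · rw [if_pos (by omega), if_neg (by omega)]
    rcases hσ with h3 | h3 <;> rw [h3] <;> ring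

lemma FF_val (hσ : σ = 1 ∨ σ = -1) (hf : ∀ n : ℕ, 0 < n → f n = 1 ∨ f n = -1)
    {x : ZMod q} (hx : x ≠ 0) : FF q f σ x = 1 ∨ FF q f σ x = -1 := by
  have h1 := ZMod.val_lt x
  have h0 := val_pos hx
  unfold FF
  split_ifs with h
  · exact hf _ h0
  · rcases hσ with h3 | h3 <;> rcases hf (q - x.val) (by omega) with h4 | h4 <;>
      rw [h3, h4] <;> norm_num

/-- It suffices to check a multiplier on small elements. -/
lemma S_of_small (h5 : 5 ≤ q) (hσ : σ = 1 ∨ σ = -1) {c : ℕ} (hc : (c : ZMod q) ≠ 0)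
    (h : ∀ n : ℕ, 0 < n → 2 * n < q → FF q f σ ((c * n : ℕ) : ZMod q) =
      FF q f σ (c : ZMod q) * FF q f σ (n : ZMod q)) : S q (FF q f σ) c := by
  have hodd := odd_of_five (q := q) h5
  intro x hx
  have h1 := ZMod.val_lt x
  have h0 := val_pos hx
  rcases Nat.lt_or_ge (2 * x.val) q with h2 | h2
  · have h3 := h x.val h0 h2
    push_cast at h3
    rw [ZMod.natCast_zmod_val] at h3
    exact h3
  · have h3 := h (q - x.val) (by omega) (by omega)
    have h4 : ((q - x.val : ℕ) : ZMod q) = -x := by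
      rw [Nat.cast_sub (le_of_lt h1), ZMod.natCast_self, ZMod.natCast_zmod_val]
      ring
    rw [Nat.cast_mul, h4, mul_neg, FF_neg h5 hσ (mul_ne_zero hc hx), FF_neg h5 hσ hx] at h3
    rcases hσ with h5 | h5 <;> rw [h5] at h3 ⊢ <;> linarith

/-! ### The antisymmetric case -/

section anti

variable (h5 : 5 ≤ q) (hf : ∀ n : ℕ, 0 < n → f n = 1 ∨ f n = -1)
  (hmul : ∀ m n : ℕ, 0 < m → 0 < n → f (m * n) = f m * f n)
  (hf2 : f 2 = -1) (hf3 : f 3 = -1) (hf5 : f 5 = -1)
  (hB : ∀ u v : ℕ, 0 < u → 0 < v → u + v = 2 * q → f u = 1 → f v = -1)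

include hmul hf2 in
lemma f_two {n : ℕ} (hn : 0 < n) : f (2 * n) = -f n := by
  rw [hmul 2 n (by norm_num) hn, hf2]
  ring

include hmul hf3 in
lemma f_three {n : ℕ} (hn : 0 < n) : f (3 * n) = -f n := by
  rw [hmul 3 n (by norm_num) hn, hf3]
  ring

include hmul hf2 in
lemma f_four {n : ℕ} (hn : 0 < n) : f (4 * n) = f n := by
  have h : 4 * n = 2 * (2 * n) := by ring
  rw [h, f_two hmul hf2 (by omega), f_two hmul hf2 hn]
  ring

include hmul hf5 in
lemma f_five {n : ℕ} (hn : 0 < n) : f (5 * n) = -f n := by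
  rw [hmul 5 n (by norm_num) hn, hf5]
  ring

include hmul hf2 hB in
omit hq in
lemma ruleA {u v : ℕ} (hu : 0 < u) (hv : 0 < v) (h : u + v = q) (h1 : f u = -1) : f v = 1 := by
  have h2 := hB (2 * u) (2 * v) (by omega) (by omega) (by omega)
    (by rw [f_two hmul hf2 hu, h1]; norm_num)
  rw [f_two hmul hf2 hv] at h2
  linarith

include hmul hf2 hf3 hf5 hB in
omit hq in
/-- The chain for multiplication by two. -/
lemma chain2 {z c : ℕ} (h1 : q < 4 * z) (hc : 2 * z + c = q) (hc0 : 0 < c) (h3 : q ≠ 3 * z)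
    (hz : f z = -1) : f c = -1 := by
  have A := fun {u v : ℕ} => ruleA (q := q) (u := u) (v := v) hmul hf2 hB
  have hz0 : 0 < z := by omega
  rcases Nat.lt_or_ge q (3 * z) with h | h
  · -- z > q/3
    obtain ⟨a, ha⟩ : ∃ a, 3 * z + a = 2 * q := ⟨2 * q - 3 * z, by omega⟩
    obtain ⟨b, hb⟩ : ∃ b, q + b = 3 * z := ⟨3 * z - q, by omega⟩
    have e1 : f (3 * z) = 1 := by rw [f_three hmul hf3 hz0, hz]; norm_num
    have e2 : f a = -1 := hB _ _ (by omega) (by omega) ha e1
    have e3 : f b = 1 := A (by omega) (by omega) (by omega) e2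
    have e4 : f (2 * b) = -1 := by rw [f_two hmul hf2 (by omega), e3]
    have e5 : f (3 * c) = 1 := A (u := 2 * b) (by omega) (by omega) (by omega) e4
    rw [f_three hmul hf3 hc0] at e5
    linarith
  · obtain ⟨a, ha⟩ : ∃ a, 5 * z + a = 2 * q := ⟨2 * q - 5 * z, by omega⟩
    obtain ⟨g, hg⟩ : ∃ g, q + g = 4 * z := ⟨4 * z - q, by omega⟩
    have e1 : f (5 * z) = 1 := by rw [f_five hmul hf5 hz0, hz]; norm_num
    have e2 : f a = -1 := hB _ _ (by omega) (by omega) ha e1
    have hfin : f g = -1 → f c = -1 := by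
      intro e
      have e5 : f (2 * c) = 1 := A (u := g) (by omega) (by omega) (by omega) e
      rw [f_two hmul hf2 hc0] at e5
      linarith
    rcases Nat.lt_or_ge (4 * q) (15 * z) with h' | h'
    · -- 4q/15 < z < q/3
      obtain ⟨d, hd⟩ : ∃ d, 4 * q + d = 15 * z := ⟨15 * z - 4 * q, by omega⟩
      obtain ⟨e, he⟩ : ∃ e, 3 * z + e = q := ⟨q - 3 * z, by omega⟩
      have e3 : f (3 * a) = 1 := by rw [f_three hmul hf3 (by omega), e2]; norm_num
      have e4 : f d = -1 := hB (3 * a) d (by omega) (by omega) (by omega) e3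
      have e5 : f (5 * e) = 1 := A (u := d) (by omega) (by omega) (by omega) e4
      have e6 : f e = -1 := by
        rw [f_five hmul hf5 (by omega)] at e5
        linarith
      have e7 : f (4 * e) = -1 := by rw [f_four hmul hf2 (by omega), e6]
      have e8 : f (3 * g) = 1 := A (u := 4 * e) (by omega) (by omega) (by omega) e7
      apply hfin
      rw [f_three hmul hf3 (by omega)] at e8
      linarith
    · -- q/4 < z < 3q/10
      obtain ⟨b, hb⟩ : ∃ b, q + b = 5 * z := ⟨5 * z - q, by omega⟩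
      obtain ⟨k, hk⟩ : ∃ k, 10 * z + k = 3 * q := ⟨3 * q - 10 * z, by omega⟩
      have e3 : f b = 1 := A (u := a) (by omega) (by omega) (by omega) e2
      have e4 : f (2 * b) = -1 := by rw [f_two hmul hf2 (by omega), e3]
      have e5 : f k = 1 := A (u := 2 * b) (by omega) (by omega) (by omega) e4
      have e6 : f (2 * k) = -1 := by rw [f_two hmul hf2 (by omega), e5]
      have e7 : f (5 * g) = 1 := A (u := 2 * k) (by omega) (by omega) (by omega) e6
      apply hfin
      rw [f_five hmul hf5 (by omega)] at e7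
      linarith

include hmul hf2 hf3 hB in
omit hq in
/-- The chain for multiplication by three. -/
lemma chain3 {z c : ℕ} (h1 : q < 6 * z) (h2 : 4 * z < q) (hc : 3 * z + c = q)
    (hz : f z = -1) : f c = -1 := by
  have A := fun {u v : ℕ} => ruleA (q := q) (u := u) (v := v) hmul hf2 hB
  obtain ⟨a, ha⟩ : ∃ a, 4 * z + a = q := ⟨q - 4 * z, by omega⟩
  obtain ⟨b, hb⟩ : ∃ b, q + b = 6 * z := ⟨6 * z - q, by omega⟩
  have e1 : f (4 * z) = -1 := by rw [f_four hmul hf2 (by omega), hz]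
  have e2 : f a = 1 := A (u := 4 * z) (by omega) (by omega) ha e1
  have e3 : f (3 * a) = -1 := by rw [f_three hmul hf3 (by omega), e2]
  have e4 : f (2 * b) = 1 := A (u := 3 * a) (by omega) (by omega) (by omega) e3
  have e5 : f b = -1 := by
    rw [f_two hmul hf2 (by omega)] at e4
    linarith
  have e6 : f (2 * c) = 1 := A (u := b) (by omega) (by omega) (by omega) e5
  rw [f_two hmul hf2 (by omega)] at e6
  linarith

include h5 hf hmul hf2 hf3 hf5 hB in
lemma S_two_anti : S q (FF q f (-1)) 2 := by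
  have hodd := odd_of_five (q := q) h5
  have h2c : ((2 : ℕ) : ZMod q) ≠ 0 := cast_ne_zero (by norm_num) (by omega)
  apply S_of_small h5 (Or.inr rfl) h2c
  intro n hn hn2
  rw [FF_small (σ := -1) (n := 2) (by omega), FF_small (σ := -1) (n := n) hn2, hf2]
  rcases Nat.lt_or_ge (4 * n) q with h | h
  · rw [FF_small (by omega), f_two hmul hf2 hn]
    ring
  · rw [FF_big (by omega) (by omega)]
    rcases hf n hn with h3 | h3
    · have h4 : f (q - 2 * n) = 1 :=
        ruleA (q := q) hmul hf2 hB (u := 2 * n) (by omega) (by omega) (by omega)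
          (by rw [f_two hmul hf2 hn, h3])
      rw [h4, h3]
    · have hq3 : q ≠ 3 * n := by
        intro h6
        have h7 : 3 ∣ q := ⟨n, h6⟩
        rcases (Nat.dvd_prime hq.out).mp h7 with h8 | h8 <;> omega
      have h4 : f (q - 2 * n) = -1 :=
        chain2 (q := q) hmul hf2 hf3 hf5 hB (z := n) (by omega) (by omega) (by omega) hq3 h3
      rw [h4, h3]

include h5 hf hmul hf2 hf3 hf5 hB in
lemma S_three_anti (h7 : 7 ≤ q) : S q (FF q f (-1)) 3 := by
  have hodd := odd_of_five (q := q) h5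
  have hS2 := S_two_anti h5 hf hmul hf2 hf3 hf5 hB
  have hS4 : S q (FF q f (-1)) 4 :=
    S_mul (c := 2) (d := 2) hS2 hS2 (cast_ne_zero (by norm_num) (by omega))
  have h3c : ((3 : ℕ) : ZMod q) ≠ 0 := cast_ne_zero (by norm_num) (by omega)
  have hneg : ∀ x : ZMod q, x ≠ 0 → FF q f (-1) (-x) = -1 * FF q f (-1) x :=
    fun x hx => FF_neg h5 (Or.inr rfl) hx
  have hv : ∀ x : ZMod q, x ≠ 0 → FF q f (-1) x = 1 ∨ FF q f (-1) x = -1 :=
    fun x hx => FF_val (Or.inr rfl) hf hx
  by_contra hS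
  obtain ⟨y, hy0, hyq, hyF, hmin⟩ := exists_min (σ := -1) (Or.inr rfl) hneg h3c (by omega) hS
  have hyc : (y : ZMod q) ≠ 0 := cast_ne_zero hy0 (by omega)
  have hdesc : ∀ c u : ℕ, S q (FF q f (-1)) c → 0 < c → c < q → 0 < u → u < y →
      (c * y + u = q ∨ c * y = q + u) → False := by
    intro c u hc hc0 hcq hu0 huy h
    exact hmin u hu0 huy
      (fail_desc hv (Or.inr rfl) hneg h3c hc (cast_ne_zero hc0 hcq) hyc hyF h)
  have hnd : ∀ c : ℕ, 1 < c → c < q → q ≠ c * y := by
    intro c hc hcq h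
    have h8 : c ∣ q := ⟨y, h⟩
    rcases (Nat.dvd_prime hq.out).mp h8 with h9 | h9 <;> omega
  have hn3 := hnd 3 (by omega) (by omega)
  have hn4 := hnd 4 (by omega) (by omega)
  have hn5 := hnd 5 (by omega) (by omega)
  rcases Nat.lt_or_ge q (3 * y) with h | h
  · exact hdesc 2 (q - 2 * y) hS2 (by omega) (by omega) (by omega) (by omega) (Or.inl (by omega))
  rcases Nat.lt_or_ge q (4 * y) with h' | h'
  · exact hdesc 4 (4 * y - q) hS4 (by omega) (by omega) (by omega) (by omega) (Or.inr (by omega))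
  rcases Nat.lt_or_ge q (5 * y) with h'' | h''
  · exact hdesc 4 (q - 4 * y) hS4 (by omega) (by omega) (by omega) (by omega) (Or.inl (by omega))
  apply hyF
  have e1 : FF q f (-1) ((3 : ℕ) : ZMod q) = -1 := by rw [FF_small (by omega), hf3]
  have e2 : FF q f (-1) ((y : ℕ) : ZMod q) = f y := FF_small hyq
  have e3 : ((3 : ℕ) : ZMod q) * (y : ZMod q) = ((3 * y : ℕ) : ZMod q) := by push_cast; ring
  rw [e1, e2, e3]
  rcases Nat.lt_or_ge (6 * y) q with h6 | h6
  · rw [FF_small (by omega), f_three hmul hf3 hy0]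
    ring
  · rw [FF_big (by omega) (by omega)]
    rcases hf y hy0 with h8 | h8
    · have h4 : f (q - 3 * y) = 1 :=
        ruleA (q := q) hmul hf2 hB (u := 3 * y) (by omega) (by omega) (by omega)
          (by rw [f_three hmul hf3 hy0, h8])
      rw [h4, h8]
    · have h4 : f (q - 3 * y) = -1 :=
        chain3 (q := q) hmul hf2 hf3 hB (z := y) (by omega) (by omega) (by omega) h8
      rw [h4, h8]

include h5 hf hmul hf2 hf3 hf5 hB in
/-- Rigidity, antisymmetric case. -/
lemma mul_anti (h7 : 7 ≤ q) : ∀ x y : ZMod q, x ≠ 0 → y ≠ 0 →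
    FF q f (-1) (x * y) = FF q f (-1) x * FF q f (-1) y := by
  have hf1 : f 1 = 1 := by
    have h := hmul 1 1 (by norm_num) (by norm_num)
    rcases hf 1 (by norm_num) with h1 | h1
    · exact h1
    · rw [mul_one, h1] at h
      norm_num at h
  apply F_mul (f := f) (σ := -1) (fun x hx => FF_val (Or.inr rfl) hf hx) (Or.inr rfl)
    (fun x hx => FF_neg h5 (Or.inr rfl) hx) (fun n _ hn2 => FF_small hn2) hmul _
    (S_two_anti h5 hf hmul hf2 hf3 hf5 hB) (S_three_anti h5 hf hmul hf2 hf3 hf5 hB h7) h7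
  have h := FF_small (q := q) (f := f) (σ := -1) (n := 1) (by omega)
  rw [Nat.cast_one] at h
  rw [h, hf1]

end anti

/-! ### The symmetric case -/

section symm

variable (h5 : 5 ≤ q) (hf : ∀ n : ℕ, 0 < n → f n = 1 ∨ f n = -1)
  (hmul : ∀ m n : ℕ, 0 < m → 0 < n → f (m * n) = f m * f n)
  (hC : ∀ u v : ℕ, 0 < u → 0 < v → u + v = q → f u = f v)

include hC in
lemma FF_symm {n : ℕ} (h0 : 0 < n) (h1 : n < q) : FF q f 1 (n : ZMod q) = f n := by
  unfold FF
  rw [ZMod.val_cast_of_lt h1]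
  split_ifs with h
  · rfl
  · rw [one_mul]
    exact hC _ _ (by omega) h0 (by omega)

include h5 hf hmul hC in
lemma mul_symm (h7 : 7 ≤ q) : ∀ x y : ZMod q, x ≠ 0 → y ≠ 0 →
    FF q f 1 (x * y) = FF q f 1 x * FF q f 1 y := by
  have hodd := odd_of_five (q := q) h5
  have hf1 : f 1 = 1 := by
    have h := hmul 1 1 (by norm_num) (by norm_num)
    rcases hf 1 (by norm_num) with h1 | h1
    · exact h1
    · rw [mul_one, h1] at h
      norm_num at h
  have h2c : ((2 : ℕ) : ZMod q) ≠ 0 := cast_ne_zero (by norm_num) (by omega)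
  have h3c : ((3 : ℕ) : ZMod q) ≠ 0 := cast_ne_zero (by norm_num) (by omega)
  have hneg : ∀ x : ZMod q, x ≠ 0 → FF q f 1 (-x) = 1 * FF q f 1 x :=
    fun x hx => FF_neg h5 (Or.inl rfl) hx
  have hv : ∀ x : ZMod q, x ≠ 0 → FF q f 1 x = 1 ∨ FF q f 1 x = -1 :=
    fun x hx => FF_val (Or.inl rfl) hf hx
  have hS2 : S q (FF q f 1) 2 := by
    apply S_of_small h5 (Or.inl rfl) h2c
    intro n hn hn2
    rw [FF_symm hC (by omega) (by omega), FF_symm hC (by norm_num) (by omega),
      FF_symm hC hn (by omega), hmul 2 n (by norm_num) hn]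
  have hS3 : S q (FF q f 1) 3 := by
    by_contra hS
    obtain ⟨y, hy0, hyq, hyF, hmin⟩ := exists_min (σ := 1) (Or.inl rfl) hneg h3c (by omega) hS
    have hyc : (y : ZMod q) ≠ 0 := cast_ne_zero hy0 (by omega)
    have hn3 : q ≠ 3 * y := by
      intro h
      have h8 : 3 ∣ q := ⟨y, h⟩
      rcases (Nat.dvd_prime hq.out).mp h8 with h9 | h9 <;> omega
    rcases Nat.lt_or_ge q (3 * y) with h | h
    · exact hmin (q - 2 * y) (by omega) (by omega)
        (fail_desc hv (Or.inl rfl) hneg h3c hS2 h2c hyc hyF (Or.inl (by omega)))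
    · apply hyF
      have e3 : ((3 : ℕ) : ZMod q) * (y : ZMod q) = ((3 * y : ℕ) : ZMod q) := by push_cast; ring
      rw [e3, FF_symm hC (by omega) (by omega), FF_symm hC (by norm_num) (by omega),
        FF_symm hC hy0 (by omega), hmul 3 y (by norm_num) hy0]
  apply F_mul (f := f) (σ := 1) hv (Or.inl rfl) hneg (fun n _ hn2 => FF_small hn2) hmul _
    hS2 hS3 h7
  have h := FF_small (q := q) (f := f) (σ := 1) (n := 1) (by omega)
  rw [Nat.cast_one] at h
  rw [h, hf1]

end symm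

end base

end Pool.Agent.H34PG
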