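import Mathlib

/-!
Rigidity of sign functions modulo a prime (project PG, helper34).
-/

namespace Pool.Agent.H34PG

/-- `S q F c`: multiplication by `c` is respected by `F` modulo `q`. -/
def S (q : ℕ) (F : ZMod q → ℤ) (c : ℕ) : Prop :=
  ∀ x : ZMod q, x ≠ 0 → F ((c : ZMod q) * x) = F (c : ZMod q) * F x

section core

variable {q : ℕ} [hq : Fact q.Prime] {F : ZMod q → ℤ} {f : ℕ → ℤ} {σ : ℤ}

lemma cast_ne_zero {n : ℕ} (h0 : 0 < n) (h1 : n < q) : (n : ZMod q) ≠ 0 := by
  intro h
  rw [ZMod.natCast_eq_zero_iff] at h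
  exact absurd (Nat.le_of_dvd h0 h) (by omega)

lemma S_one (hF1 : F 1 = 1) : S q F 1 := by
  intro x _
  simp [hF1]

lemma S_mul {c d : ℕ} (hc : S q F c) (hd : S q F d) (hd0 : (d : ZMod q) ≠ 0) :
    S q F (c * d) := by
  intro x hx
  have h1 : F ((c : ZMod q) * ((d : ZMod q) * x)) = F c * F ((d : ZMod q) * x) :=
    hc _ (mul_ne_zero hd0 hx)
  have h2 := hd x hx
  have h3 := hc d hd0
  push_cast
  rw [mul_assoc, h1, h2, h3]
  ring

/-- Failure of multiplicativity at `x` for the multiplier `b`. -/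
def Fail (q : ℕ) (F : ZMod q → ℤ) (b : ℕ) (x : ZMod q) : Prop :=
  F ((b : ZMod q) * x) ≠ F (b : ZMod q) * F x

lemma fail_mul (hv : ∀ x : ZMod q, x ≠ 0 → F x = 1 ∨ F x = -1) {b c : ℕ}
    (hb : (b : ZMod q) ≠ 0) (hc : S q F c) (hc0 : (c : ZMod q) ≠ 0) {x : ZMod q} (hx : x ≠ 0) :
    Fail q F b ((c : ZMod q) * x) ↔ Fail q F b x := by
  unfold Fail
  have h1 : F ((b : ZMod q) * ((c : ZMod q) * x)) = F c * F ((b : ZMod q) * x) := by
    rw [← hc _ (mul_ne_zero hb hx)]
    congr 1
    ring
  have h2 := hc x hx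
  rw [h1, h2]
  rcases hv c hc0 with h | h <;> rw [h] <;> constructor <;> intro h3 h4 <;> apply h3 <;> linarith

lemma fail_neg (hσ : σ = 1 ∨ σ = -1) (hneg : ∀ x : ZMod q, x ≠ 0 → F (-x) = σ * F x) {b : ℕ}
    (hb : (b : ZMod q) ≠ 0) {x : ZMod q} (hx : x ≠ 0) :
    Fail q F b (-x) ↔ Fail q F b x := by
  unfold Fail
  have h1 : F ((b : ZMod q) * (-x)) = σ * F ((b : ZMod q) * x) := by
    rw [mul_neg]
    exact hneg _ (mul_ne_zero hb hx)
  rw [h1, hneg x hx]
  rcases hσ with h | h <;> rw [h] <;> constructor <;> intro h3 h4 <;> apply h3 <;> linarith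

/-- The descent step: a small multiple of a failing element is failing. -/
lemma fail_desc (hv : ∀ x : ZMod q, x ≠ 0 → F x = 1 ∨ F x = -1)
    (hσ : σ = 1 ∨ σ = -1) (hneg : ∀ x : ZMod q, x ≠ 0 → F (-x) = σ * F x) {b c y u : ℕ}
    (hb : (b : ZMod q) ≠ 0) (hc : S q F c) (hc0 : (c : ZMod q) ≠ 0) (hy0 : (y : ZMod q) ≠ 0)
    (hy : Fail q F b (y : ZMod q)) (h : c * y + u = q ∨ c * y = q + u) :
    Fail q F b (u : ZMod q) := by
  rcases h with h | h
  · have h1 : (u : ZMod q) = -((c : ZMod q) * y) := by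
      have h2 : ((c * y + u : ℕ) : ZMod q) = ((q : ℕ) : ZMod q) := by rw [h]
      push_cast at h2
      rw [ZMod.natCast_self] at h2
      linear_combination h2
    rw [h1, fail_neg hσ hneg hb (mul_ne_zero hc0 hy0), fail_mul hv hb hc hc0 hy0]
    exact hy
  · have h1 : (u : ZMod q) = (c : ZMod q) * y := by
      have h2 : ((c * y : ℕ) : ZMod q) = ((q + u : ℕ) : ZMod q) := by rw [h]
      push_cast at h2
      rw [ZMod.natCast_self] at h2
      linear_combination -h2
    rw [h1, fail_mul hv hb hc hc0 hy0]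
    exact hy

/-- Extremal element: if multiplication by `b` fails, there is a least failing natural number. -/
lemma exists_min (hσ : σ = 1 ∨ σ = -1) (hneg : ∀ x : ZMod q, x ≠ 0 → F (-x) = σ * F x) {b : ℕ}
    (hb : (b : ZMod q) ≠ 0) (hq2 : q ≠ 2) (h : ¬ S q F b) :
    ∃ y : ℕ, 0 < y ∧ 2 * y < q ∧ Fail q F b (y : ZMod q) ∧
      ∀ u : ℕ, 0 < u → u < y → ¬ Fail q F b (u : ZMod q) := by
  classical
  have hex : ∃ y : ℕ, 0 < y ∧ y < q ∧ Fail q F b (y : ZMod q) := by
    unfold S at h
    push Not at h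
    obtain ⟨x, hx, hx2⟩ := h
    refine ⟨x.val, ?_, ZMod.val_lt x, ?_⟩
    · rcases Nat.eq_zero_or_pos x.val with h0 | h0
      · exact absurd ((ZMod.val_eq_zero x).mp h0) hx
      · exact h0
    · unfold Fail
      rw [ZMod.natCast_zmod_val]
      exact hx2
  set y := Nat.find hex with hydef
  have hy := Nat.find_spec hex
  have hmin : ∀ u : ℕ, 0 < u → u < y → ¬ Fail q F b (u : ZMod q) := by
    intro u hu0 huy hfu
    have := Nat.find_min hex huy
    exact this ⟨hu0, lt_trans huy hy.2.1, hfu⟩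
  refine ⟨y, hy.1, ?_, hy.2.2, hmin⟩
  by_contra hlt
  have hodd : q % 2 = 1 := by
    rcases hq.out.eq_two_or_odd with h2 | h2
    · exact absurd h2 hq2
    · exact h2
  have h1 : 0 < q - y := by
    have := hy.2.1
    omega
  have h2 : q - y < y := by omega
  apply hmin (q - y) h1 h2
  have h3 : ((q - y : ℕ) : ZMod q) = -(y : ZMod q) := by
    rw [Nat.cast_sub (le_of_lt hy.2.1), ZMod.natCast_self]
    ring
  rw [h3, fail_neg hσ hneg hb (cast_ne_zero hy.1 hy.2.1)]
  exact hy.2.2

/-- Induction step for `b ≥ 5`. -/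
lemma S_step (hv : ∀ x : ZMod q, x ≠ 0 → F x = 1 ∨ F x = -1)
    (hσ : σ = 1 ∨ σ = -1) (hneg : ∀ x : ZMod q, x ≠ 0 → F (-x) = σ * F x)
    (hf : ∀ n : ℕ, 0 < n → 2 * n < q → F (n : ZMod q) = f n)
    (hmul : ∀ m n : ℕ, 0 < m → 0 < n → f (m * n) = f m * f n)
    {b : ℕ} (hb5 : 5 ≤ b) (hbq : 2 * b < q) (ih : ∀ c : ℕ, 0 < c → c < b → S q F c) :
    S q F b := by
  have hb0 : (b : ZMod q) ≠ 0 := cast_ne_zero (by omega) (by omega)
  have hodd : q % 2 = 1 := by
    rcases hq.out.eq_two_or_odd with h2 | h2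
    · omega
    · exact h2
  -- multiples of three
  by_cases h3b : b % 3 = 0
  · obtain ⟨c, hc⟩ : ∃ c, b = 3 * c := ⟨b / 3, by omega⟩
    rw [hc]
    exact S_mul (ih 3 (by omega) (by omega)) (ih c (by omega) (by omega))
      (cast_ne_zero (by omega) (by omega))
  by_contra hS
  obtain ⟨y, hy0, hyq, hyF, hmin⟩ := exists_min hσ hneg hb0 (by omega) hS
  have hyc : (y : ZMod q) ≠ 0 := cast_ne_zero hy0 (by omega)
  have hdesc : ∀ c u : ℕ, S q F c → 0 < c → c < q → 0 < u → u < y →
      (c * y + u = q ∨ c * y = q + u) → False := by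
    intro c u hc hc0 hcq hu0 huy h
    exact hmin u hu0 huy (fail_desc hv hσ hneg hb0 hc (cast_ne_zero hc0 hcq) hyc hyF h)
  -- b y > q / 2
  have hby : q < 2 * (b * y) := by
    by_contra hcon
    have hne : 2 * (b * y) ≠ q := by omega
    apply hyF
    have h1 := hf (b * y) (Nat.mul_pos (by omega) hy0) (by omega)
    have h2 := hf b (by omega) hbq
    have h3 := hf y hy0 hyq
    push_cast at h1
    rw [h1, h2, h3, hmul b y (by omega) hy0]
  have hy1 : 1 < y := by
    rcases Nat.lt_or_ge 1 y with h | h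
    · exact h
    · have : y = 1 := by omega
      subst this
      omega
  -- the quotient
  obtain ⟨n, r, hn, hr0, hry⟩ : ∃ n r : ℕ, n * y + r = q ∧ 0 < r ∧ r < y := by
    refine ⟨q / y, q % y, ?_, ?_, Nat.mod_lt _ hy0⟩
    · have := Nat.div_add_mod q y
      rw [mul_comm] at this
      exact this
    · rcases Nat.eq_zero_or_pos (q % y) with h0 | h0
      · have hd : y ∣ q := Nat.dvd_of_mod_eq_zero h0
        rcases (Nat.dvd_prime hq.out).mp hd with h | h <;> omega
      · exact h0
  have hn2 : 2 ≤ n := by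
    by_contra hcon
    have : n = 0 ∨ n = 1 := by omega
    rcases this with h | h <;> subst h <;> omega
  have hn2b : n < 2 * b := by
    by_contra hcon
    have : 2 * b * y ≤ n * y := Nat.mul_le_mul_right y (by omega)
    nlinarith
  have hS2 : S q F 2 := ih 2 (by omega) (by omega)
  -- the even neighbour
  rcases Nat.even_or_odd' n with ⟨e, he | he⟩
  · -- n even
    have hSn : S q F n := by
      rw [he]
      exact S_mul hS2 (ih e (by omega) (by omega)) (cast_ne_zero (by omega) (by omega))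
    exact hdesc n r hSn (by omega) (by omega) hr0 hry (Or.inl hn)
  · -- n odd
    have hn1 : (n + 1) * y = q + (y - r) := by
      have : (n + 1) * y = n * y + y := by ring
      omega
    by_cases heb : e + 1 < b
    · have hSn : S q F (n + 1) := by
        have : n + 1 = 2 * (e + 1) := by omega
        rw [this]
        exact S_mul hS2 (ih (e + 1) (by omega) heb) (cast_ne_zero (by omega) (by omega))
      exact hdesc (n + 1) (y - r) hSn (by omega) (by omega) (by omega) (by omega) (Or.inr hn1)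
    · have hn' : n = 2 * b - 1 := by omega
      have hS3 : S q F 3 := ih 3 (by omega) (by omega)
      have hcase : (2 * b - 1) % 3 = 0 ∨ (2 * b + 1) % 3 = 0 := by
        have h7 : b % 3 = 1 ∨ b % 3 = 2 := by omega
        rcases h7 with h7 | h7
        · right
          omega
        · left
          omega
      rcases hcase with h3 | h3
      · obtain ⟨c, hc⟩ : ∃ c, 2 * b - 1 = 3 * c := ⟨(2 * b - 1) / 3, by omega⟩
        have hSn : S q F n := by
          rw [hn', hc]
          exact S_mul hS3 (ih c (by omega) (by omega)) (cast_ne_zero (by omega) (by omega))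
        exact hdesc n r hSn (by omega) (by omega) hr0 hry (Or.inl hn)
      · obtain ⟨c, hc⟩ : ∃ c, 2 * b + 1 = 3 * c := ⟨(2 * b + 1) / 3, by omega⟩
        have hSn : S q F (2 * b + 1) := by
          rw [hc]
          exact S_mul hS3 (ih c (by omega) (by omega)) (cast_ne_zero (by omega) (by omega))
        have h2c : ((2 : ℕ) : ZMod q) ≠ 0 := cast_ne_zero (by omega) (by omega)
        -- y is odd
        have hyodd : y % 2 = 1 := by
          by_contra hcon
          obtain ⟨z, hz⟩ : ∃ z, y = 2 * z := ⟨y / 2, by omega⟩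
          have hzc : (z : ZMod q) ≠ 0 := cast_ne_zero (by omega) (by omega)
          apply hmin z (by omega) (by omega)
          have h1 := (fail_mul hv hb0 hS2 h2c hzc).mp
          apply h1
          have h2 : ((2 : ℕ) : ZMod q) * (z : ZMod q) = (y : ZMod q) := by
            rw [hz]
            push_cast
            ring
          rw [h2]
          exact hyF
        -- (2b+1) y = q + w, w = 2u
        have hw : (2 * b + 1) * y = q + (2 * y - r) := by
          have h4 : n + 2 = 2 * b + 1 := by omega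
          have h5 : (n + 2) * y = n * y + 2 * y := by ring
          rw [h4] at h5
          omega
        have hwe : (2 * y - r) % 2 = 0 := by
          have h6 : ((2 * b + 1) * y) % 2 = 1 := by
            rw [Nat.mul_mod, hyodd]
            omega
          omega
        have hbq1 : 2 * b + 1 < q := by
          have h8 : (2 * b + 1) * 2 ≤ (2 * b + 1) * y := Nat.mul_le_mul_left _ hy1
          omega
        obtain ⟨u, hu⟩ : ∃ u, 2 * y - r = 2 * u := ⟨(2 * y - r) / 2, by omega⟩
        have hfw : Fail q F b ((2 * y - r : ℕ) : ZMod q) :=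
          fail_desc hv hσ hneg hb0 hSn (cast_ne_zero (by omega) (by omega)) hyc hyF (Or.inr hw)
        apply hmin u (by omega) (by omega)
        have huc : (u : ZMod q) ≠ 0 := cast_ne_zero (by omega) (by omega)
        apply (fail_mul hv hb0 hS2 h2c huc).mp
        have h2 : ((2 : ℕ) : ZMod q) * (u : ZMod q) = ((2 * y - r : ℕ) : ZMod q) := by
          rw [hu]
          push_cast
          ring
        rw [h2]
        exact hfw

/-- All multipliers below `q/2`. -/
lemma S_all (hv : ∀ x : ZMod q, x ≠ 0 → F x = 1 ∨ F x = -1)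
    (hσ : σ = 1 ∨ σ = -1) (hneg : ∀ x : ZMod q, x ≠ 0 → F (-x) = σ * F x)
    (hf : ∀ n : ℕ, 0 < n → 2 * n < q → F (n : ZMod q) = f n)
    (hmul : ∀ m n : ℕ, 0 < m → 0 < n → f (m * n) = f m * f n)
    (hF1 : F 1 = 1) (h2 : S q F 2) (h3 : S q F 3) :
    ∀ b : ℕ, 0 < b → 2 * b < q → S q F b := by
  intro b
  induction b using Nat.strong_induction_on with
  | _ b ih =>
    intro hb0 hbq
    rcases Nat.lt_or_ge b 5 with hb5 | hb5
    · have : b = 1 ∨ b = 2 ∨ b = 3 ∨ b = 4 := by omega
      rcases this with h | h | h | h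
      · subst h
        exact S_one hF1
      · subst h
        exact h2
      · subst h
        exact h3
      · subst h
        exact S_mul (c := 2) (d := 2) h2 h2 (cast_ne_zero (by omega) (by omega))
    · exact S_step hv hσ hneg hf hmul hb5 hbq (fun c hc0 hcb => ih c hcb hc0 (by omega))

/-- `F` is multiplicative. -/
lemma F_mul (hv : ∀ x : ZMod q, x ≠ 0 → F x = 1 ∨ F x = -1)
    (hσ : σ = 1 ∨ σ = -1) (hneg : ∀ x : ZMod q, x ≠ 0 → F (-x) = σ * F x)
    (hf : ∀ n : ℕ, 0 < n → 2 * n < q → F (n : ZMod q) = f n)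
    (hmul : ∀ m n : ℕ, 0 < m → 0 < n → f (m * n) = f m * f n)
    (hF1 : F 1 = 1) (h2 : S q F 2) (h3 : S q F 3) (hq7 : 7 ≤ q) :
    ∀ x y : ZMod q, x ≠ 0 → y ≠ 0 → F (x * y) = F x * F y := by
  have hS := S_all hv hσ hneg hf hmul hF1 h2 h3
  have hodd : q % 2 = 1 := by
    rcases hq.out.eq_two_or_odd with h2 | h2
    · omega
    · exact h2
  intro x y hx hy
  have hx0 : 0 < x.val := by
    rcases Nat.eq_zero_or_pos x.val with h0 | h0
    · exact absurd ((ZMod.val_eq_zero x).mp h0) hx
    · exact h0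
  have hxq := ZMod.val_lt x
  rcases Nat.lt_or_ge (2 * x.val) q with h | h
  · have h1 := hS x.val hx0 h y hy
    rw [ZMod.natCast_zmod_val] at h1
    exact h1
  · have h1 := hS (q - x.val) (by omega) (by omega) y hy
    have h3 : ((q - x.val : ℕ) : ZMod q) = -x := by
      rw [Nat.cast_sub (le_of_lt hxq), ZMod.natCast_self, ZMod.natCast_zmod_val]
      ring
    rw [h3] at h1
    rw [neg_mul, hneg _ (mul_ne_zero hx hy), hneg x hx] at h1
    rcases hσ with h4 | h4 <;> rw [h4] at h1 <;> linarith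

/-- Squares have value one. -/
lemma F_sq (hv : ∀ x : ZMod q, x ≠ 0 → F x = 1 ∨ F x = -1)
    (hM : ∀ x y : ZMod q, x ≠ 0 → y ≠ 0 → F (x * y) = F x * F y)
    {x : ZMod q} (hx : x ≠ 0) (hs : IsSquare x) : F x = 1 := by
  obtain ⟨s, hs⟩ := hs
  have hs0 : s ≠ 0 := by
    intro h
    rw [h, mul_zero] at hs
    exact hx hs
  rw [hs, hM s s hs0 hs0]
  rcases hv s hs0 with h | h <;> rw [h] <;> norm_num

end core

end Pool.Agent.H34PG
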