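import Pool.Agent.H34PG.Base

/-!
The parity Goldbach theorem for all even numbers (project PG, helper34).
-/

namespace Pool.Agent.H34PG

open ArithmeticFunction

/-- The Liouville function. -/
def lam (n : ℕ) : ℤ := (-1) ^ (cardFactors n)

lemma lam_val (n : ℕ) : lam n = 1 ∨ lam n = -1 := by
  unfold lam
  exact neg_one_pow_eq_or ℤ _

lemma lam_mul (m n : ℕ) (hm : 0 < m) (hn : 0 < n) : lam (m * n) = lam m * lam n := by
  unfold lam
  rw [cardFactors_mul (by omega) (by omega), pow_add]

lemma lam_prime {p : ℕ} (hp : p.Prime) : lam p = -1 := by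
  unfold lam
  rw [cardFactors_apply_prime hp, pow_one]

lemma lam_one : lam 1 = 1 := by
  unfold lam
  simp

/-- The rigidity contradiction, antisymmetric case. -/
lemma contra_anti {q : ℕ} [hq : Fact q.Prime] (h7 : 7 ≤ q) {f : ℕ → ℤ}
    (hf : ∀ n : ℕ, 0 < n → f n = 1 ∨ f n = -1)
    (hmul : ∀ m n : ℕ, 0 < m → 0 < n → f (m * n) = f m * f n)
    (hp : ∀ p : ℕ, p.Prime → f p = -1)
    (hB : ∀ u v : ℕ, 0 < u → 0 < v → u + v = 2 * q → f u = 1 → f v = -1) : False := by
  have h5 : 5 ≤ q := by omega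
  have hodd := odd_of_five (q := q) h5
  have hM := mul_anti (q := q) (f := f) h5 hf hmul (hp 2 Nat.prime_two) (hp 3 Nat.prime_three)
    (hp 5 (by norm_num)) hB h7
  have hv : ∀ x : ZMod q, x ≠ 0 → FF q f (-1) x = 1 ∨ FF q f (-1) x = -1 :=
    fun x hx => FF_val (Or.inr rfl) hf hx
  have hf1 : f 1 = 1 := by
    have h := hmul 1 1 (by norm_num) (by norm_num)
    rcases hf 1 (by norm_num) with h1 | h1
    · exact h1
    · rw [mul_one, h1] at h
      norm_num at h
  have hF1 : FF q f (-1) 1 = 1 := by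
    have h := FF_small (q := q) (f := f) (σ := -1) (n := 1) (by omega)
    rw [Nat.cast_one] at h
    rw [h, hf1]
  -- minus one is not a square
  have hq4 : q % 4 = 3 := by
    by_contra hcon
    have h1 : IsSquare (-1 : ZMod q) := ZMod.exists_sq_eq_neg_one_iff.mpr hcon
    have h2 := F_sq hv hM (neg_ne_zero.mpr one_ne_zero) h1
    rw [FF_neg h5 (Or.inr rfl) one_ne_zero, hF1] at h2
    norm_num at h2
  -- two is not a square
  have hq8 : q % 8 = 3 := by
    by_contra hcon
    have h1 : IsSquare (2 : ZMod q) :=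
      (ZMod.exists_sq_eq_two_iff (by omega)).mpr (by omega)
    have h2c : (2 : ZMod q) ≠ 0 := by
      have := cast_ne_zero (q := q) (n := 2) (by norm_num) (by omega)
      exact_mod_cast this
    have h2 := F_sq hv hM h2c h1
    have h3 := FF_small (q := q) (f := f) (σ := -1) (n := 2) (by omega)
    rw [hp 2 Nat.prime_two] at h3
    rw [Nat.cast_ofNat] at h3
    rw [h3] at h2
    norm_num at h2
  obtain ⟨m, hm⟩ : ∃ m, q + 1 = 4 * m := ⟨(q + 1) / 4, by omega⟩
  have hm3 : 3 ≤ m := by omega
  have hmodd : m % 2 = 1 := by omega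
  have hpp : (m.minFac).Prime := Nat.minFac_prime (by omega)
  set p := m.minFac with hpdef
  have hpm : p ∣ m := Nat.minFac_dvd m
  have hple : p ≤ m := Nat.le_of_dvd (by omega) hpm
  have hpodd : p % 2 = 1 := by
    rcases hpp.eq_two_or_odd with h2 | h2
    · exfalso
      rw [h2] at hpm
      omega
    · exact h2
  have hpq1 : p ∣ q + 1 := by
    rw [hm]
    exact Dvd.dvd.mul_left hpm 4
  have : Fact p.Prime := ⟨hpp⟩
  have hp0 : (p : ZMod q) ≠ 0 := cast_ne_zero (by omega) (by omega)
  have hqp : (q : ZMod p) = -1 := by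
    have h1 : ((q + 1 : ℕ) : ZMod p) = 0 := by
      rw [ZMod.natCast_eq_zero_iff]
      exact hpq1
    push_cast at h1
    linear_combination h1
  have hnsq : ¬ IsSquare (p : ZMod q) := by
    intro h
    have h2 := F_sq hv hM hp0 h
    rw [FF_small (by omega), hp p hpp] at h2
    norm_num at h2
  rcases (show p % 4 = 1 ∨ p % 4 = 3 by omega) with h | h
  · apply hnsq
    have h1 : IsSquare (q : ZMod p) := by
      rw [hqp]
      exact ZMod.exists_sq_eq_neg_one_iff.mpr (by omega)
    exact (ZMod.exists_sq_eq_prime_iff_of_mod_four_eq_one h (by omega)).mp h1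
  · have h1 : ¬ IsSquare (q : ZMod p) := by
      rw [hqp, ZMod.exists_sq_eq_neg_one_iff]
      omega
    have h2 := ZMod.exists_sq_eq_prime_iff_of_mod_four_eq_three (p := p) (q := q) h hq4 (by omega)
    exact h1 (h2.mpr hnsq)

/-- The rigidity contradiction, symmetric case. -/
lemma contra_symm {q : ℕ} [hq : Fact q.Prime] (h7 : 7 ≤ q) {f : ℕ → ℤ}
    (hf : ∀ n : ℕ, 0 < n → f n = 1 ∨ f n = -1)
    (hmul : ∀ m n : ℕ, 0 < m → 0 < n → f (m * n) = f m * f n)
    (hp : ∀ p : ℕ, p.Prime → f p = -1)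
    (hC : ∀ u v : ℕ, 0 < u → 0 < v → u + v = q → f u = f v) : False := by
  have h5 : 5 ≤ q := by omega
  have hodd := odd_of_five (q := q) h5
  have hM := mul_symm (q := q) (f := f) h5 hf hmul hC h7
  have hv : ∀ x : ZMod q, x ≠ 0 → FF q f 1 x = 1 ∨ FF q f 1 x = -1 :=
    fun x hx => FF_val (Or.inl rfl) hf hx
  have h2c : (2 : ZMod q) ≠ 0 := by
    have := cast_ne_zero (q := q) (n := 2) (by norm_num) (by omega)
    exact_mod_cast this
  have hF2 : FF q f 1 2 = -1 := by
    have h3 := FF_small (q := q) (f := f) (σ := 1) (n := 2) (by omega)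
    rw [hp 2 Nat.prime_two] at h3
    rw [Nat.cast_ofNat] at h3
    exact h3
  have hq8 : q % 8 = 3 ∨ q % 8 = 5 := by
    by_contra hcon
    have h1 : IsSquare (2 : ZMod q) :=
      (ZMod.exists_sq_eq_two_iff (by omega)).mpr (by omega)
    have h2 := F_sq hv hM h2c h1
    rw [hF2] at h2
    norm_num at h2
  have hq85 : q % 8 = 5 := by
    rcases hq8 with h | h
    · exfalso
      have h1 : IsSquare (-2 : ZMod q) :=
        (ZMod.exists_sq_eq_neg_two_iff (by omega)).mpr (by omega)
      have h2 := F_sq hv hM (neg_ne_zero.mpr h2c) h1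
      rw [FF_neg h5 (Or.inl rfl) h2c, hF2] at h2
      norm_num at h2
    · exact h
  obtain ⟨m, hm⟩ : ∃ m, q = 4 * m + 1 := ⟨(q - 1) / 4, by omega⟩
  have hm3 : 3 ≤ m := by omega
  have hmodd : m % 2 = 1 := by omega
  have hpp : (m.minFac).Prime := Nat.minFac_prime (by omega)
  set p := m.minFac with hpdef
  have hpm : p ∣ m := Nat.minFac_dvd m
  have hple : p ≤ m := Nat.le_of_dvd (by omega) hpm
  have hpodd : p % 2 = 1 := by
    rcases hpp.eq_two_or_odd with h2 | h2
    · exfalso
      rw [h2] at hpm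
      omega
    · exact h2
  have : Fact p.Prime := ⟨hpp⟩
  have hp0 : (p : ZMod q) ≠ 0 := cast_ne_zero (by omega) (by omega)
  have hqp : (q : ZMod p) = 1 := by
    have h1 : ((4 * m : ℕ) : ZMod p) = 0 := by
      rw [ZMod.natCast_eq_zero_iff]
      exact Dvd.dvd.mul_left hpm 4
    rw [hm]
    push_cast at h1 ⊢
    rw [h1, zero_add]
  have hnsq : ¬ IsSquare (p : ZMod q) := by
    intro h
    have h2 := F_sq hv hM hp0 h
    rw [FF_small (by omega), hp p hpp] at h2
    norm_num at h2
  apply hnsq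
  have h1 : IsSquare (q : ZMod p) := by
    rw [hqp]
    exact IsSquare.one
  exact (ZMod.exists_sq_eq_prime_iff_of_mod_four_eq_one (p := q) (q := p) (by omega)
    (by omega)).mpr h1

lemma lam_two : lam 2 = -1 := lam_prime Nat.prime_two
lemma lam_three : lam 3 = -1 := lam_prime Nat.prime_three
lemma lam_five : lam 5 = -1 := lam_prime (by norm_num)
lemma lam_four : lam 4 = 1 := by
  rw [show 4 = 2 * 2 by norm_num, lam_mul 2 2 (by norm_num) (by norm_num), lam_two]; norm_num
lemma lam_six : lam 6 = 1 := by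
  rw [show 6 = 2 * 3 by norm_num, lam_mul 2 3 (by norm_num) (by norm_num), lam_two, lam_three]
  norm_num

/-- For every prime `q ≥ 5`, `2q` is the sum of two positive integers with `λ = 1`. -/
theorem twice_prime {q : ℕ} (hq : q.Prime) (h5 : 5 ≤ q) :
    ∃ u v : ℕ, 0 < u ∧ 0 < v ∧ u + v = 2 * q ∧ lam u = 1 ∧ lam v = 1 := by
  rcases Nat.lt_or_ge q 7 with h7 | h7
  · have : q = 5 := by
      have : q = 5 ∨ q = 6 := by omega
      rcases this with h | h
      · exact h
      · rw [h] at hq
        norm_num at hq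
    subst this
    exact ⟨4, 6, by norm_num, by norm_num, by norm_num, lam_four, lam_six⟩
  · by_contra hcon
    push Not at hcon
    have : Fact q.Prime := ⟨hq⟩
    apply contra_anti (q := q) (f := lam) h7 (fun n _ => lam_val n) lam_mul
      (fun p hp => lam_prime hp)
    intro u v hu hv huv hu1
    rcases lam_val v with h | h
    · exact absurd h (hcon u v hu hv huv hu1)
    · exact h

/-- `n` is bad if `2n` has no representation with both signs equal to `-λ(n)`. -/
def Bad (n : ℕ) : Prop :=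
  ∀ a b : ℕ, 0 < a → 0 < b → a + b = 2 * n → ¬ (lam a = -lam n ∧ lam b = -lam n)

lemma Bad.dvd {n d : ℕ} (hn : Bad n) (hn0 : 0 < n) (hd : d ∣ n) : Bad d := by
  obtain ⟨k, hk⟩ := hd
  have hd0 : 0 < d := Nat.pos_of_ne_zero (by rintro rfl; omega)
  have hk0 : 0 < k := Nat.pos_of_ne_zero (by rintro rfl; omega)
  intro a b ha hb hab ⟨h1, h2⟩
  apply hn (k * a) (k * b) (Nat.mul_pos hk0 ha) (Nat.mul_pos hk0 hb)
  · rw [hk, ← mul_add, hab]
    ring
  · rw [hk, lam_mul k a hk0 ha, lam_mul k b hk0 hb, lam_mul d k hd0 hk0, h1, h2]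
    constructor <;> ring

/-- Every `n ≥ 4` is good. -/
theorem not_bad {n : ℕ} (h4 : 4 ≤ n) : ¬ Bad n := by
  intro hn
  have hn0 : 0 < n := by omega
  have hpr : ∀ p : ℕ, p.Prime → p ∣ n → p = 2 ∨ p = 3 := by
    intro p hp hpn
    by_contra hcon
    have h5 : 5 ≤ p := by
      have h2 := hp.two_le
      have : p ≠ 4 := by
        rintro rfl
        norm_num at hp
      omega
    obtain ⟨u, v, hu, hv, huv, h1, h2⟩ := twice_prime hp h5
    apply hn.dvd hn0 hpn u v hu hv huv
    rw [lam_prime hp, h1, h2]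
    norm_num
  have h44 : ¬ 4 ∣ n := by
    intro h
    apply hn.dvd hn0 h 3 5 (by norm_num) (by norm_num) (by norm_num)
    rw [lam_four, lam_three, lam_five]
    norm_num
  have h66 : ¬ 6 ∣ n := by
    intro h
    apply hn.dvd hn0 h 5 7 (by norm_num) (by norm_num) (by norm_num)
    rw [lam_six, lam_five, lam_prime (show Nat.Prime 7 by norm_num)]
    norm_num
  have h99 : ¬ 9 ∣ n := by
    intro h
    apply hn.dvd hn0 h 5 13 (by norm_num) (by norm_num) (by norm_num)
    rw [lam_five, lam_prime (show Nat.Prime 13 by norm_num), show 9 = 3 * 3 by norm_num,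
      lam_mul 3 3 (by norm_num) (by norm_num), lam_three]
    norm_num
  have hp1 : (n.minFac).Prime := Nat.minFac_prime (by omega)
  obtain ⟨m, hm⟩ := Nat.minFac_dvd n
  have hm2 : m ≠ 1 := by
    rintro rfl
    rcases hpr _ hp1 (Nat.minFac_dvd n) with h | h <;> rw [h] at hm <;> omega
  have hp2 : (m.minFac).Prime := Nat.minFac_prime hm2
  have hd : n.minFac * m.minFac ∣ n := by
    conv_rhs => rw [hm]
    exact Nat.mul_dvd_mul_left _ (Nat.minFac_dvd m)
  have hr := hpr _ hp2 (dvd_trans (Dvd.intro_left _ rfl) hd)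
  have hr1 := hpr _ hp1 (Nat.minFac_dvd n)
  rcases hr1 with h | h <;> rcases hr with h' | h' <;> rw [h, h'] at hd <;> norm_num at hd
  · exact h44 hd
  · exact h66 hd
  · exact h66 hd
  · exact h99 hd

/-- Part (2): for every `n ≥ 4` a symmetric pair with signs opposite to that of `n`. -/
theorem main_two {n : ℕ} (h4 : 4 ≤ n) :
    ∃ x : ℕ, 0 < x ∧ x < n ∧ lam (n - x) = -lam n ∧ lam (n + x) = -lam n := by
  have h := not_bad h4
  unfold Bad at h
  push Not at h
  obtain ⟨a, b, ha, hb, hab, h1, h2⟩ := h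
  have hne : a ≠ n := by
    rintro rfl
    rcases lam_val a with h | h <;> rw [h] at h1 <;> norm_num at h1
  rcases Nat.lt_or_ge a n with h3 | h3
  · refine ⟨n - a, by omega, by omega, ?_, ?_⟩
    · rw [show n - (n - a) = a by omega]
      exact h1
    · rw [show n + (n - a) = b by omega]
      exact h2
  · refine ⟨a - n, by omega, by omega, ?_, ?_⟩
    · rw [show n - (a - n) = b by omega]
      exact h2
    · rw [show n + (a - n) = a by omega]
      exact h1

/-- The symmetric bad property. -/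
def SBad (N : ℕ) : Prop := ∀ a b : ℕ, 0 < a → 0 < b → a + b = N → lam a = lam b

lemma SBad.dvd {n d : ℕ} (hn : SBad n) (hn0 : 0 < n) (hd : d ∣ n) : SBad d := by
  obtain ⟨k, hk⟩ := hd
  have hk0 : 0 < k := Nat.pos_of_ne_zero (by rintro rfl; omega)
  intro a b ha hb hab
  have h := hn (k * a) (k * b) (Nat.mul_pos hk0 ha) (Nat.mul_pos hk0 hb)
    (by rw [← mul_add, hab, hk]; ring)
  rw [lam_mul k a hk0 ha, lam_mul k b hk0 hb] at h
  rcases lam_val k with h1 | h1 <;> rw [h1] at h <;> linarith

theorem not_sbad {N : ℕ} (h3 : 3 ≤ N) (h5 : N ≠ 5) (h10 : N ≠ 10) : ¬ SBad N := by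
  intro hn
  have hn0 : 0 < N := by omega
  have h33 : ¬ 3 ∣ N := by
    intro h
    have := hn.dvd hn0 h 1 2 (by norm_num) (by norm_num) (by norm_num)
    rw [lam_one, lam_two] at this
    norm_num at this
  have h44 : ¬ 4 ∣ N := by
    intro h
    have := hn.dvd hn0 h 1 3 (by norm_num) (by norm_num) (by norm_num)
    rw [lam_one, lam_three] at this
    norm_num at this
  have h2525 : ¬ 25 ∣ N := by
    intro h
    have := hn.dvd hn0 h 3 22 (by norm_num) (by norm_num) (by norm_num)
    rw [lam_three, show 22 = 2 * 11 by norm_num, lam_mul 2 11 (by norm_num) (by norm_num),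
      lam_two, lam_prime (show Nat.Prime 11 by norm_num)] at this
    norm_num at this
  have hpr : ∀ p : ℕ, p.Prime → p ∣ N → p = 2 ∨ p = 5 := by
    intro p hp hpn
    by_contra hcon
    have h7 : 7 ≤ p := by
      have h2 := hp.two_le
      have h4 : p ≠ 4 := by
        rintro rfl
        norm_num at hp
      have h6 : p ≠ 6 := by
        rintro rfl
        norm_num at hp
      have h3 : p ≠ 3 := by
        rintro rfl
        exact h33 hpn
      omega
    have : Fact p.Prime := ⟨hp⟩
    exact contra_symm (q := p) (f := lam) h7 (fun n _ => lam_val n) lam_mul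
      (fun p hp => lam_prime hp) (hn.dvd hn0 hpn)
  have hp1 : (N.minFac).Prime := Nat.minFac_prime (by omega)
  obtain ⟨m, hm⟩ := Nat.minFac_dvd N
  have hr1 := hpr _ hp1 (Nat.minFac_dvd N)
  have hmd : m ∣ N := Dvd.intro_left _ hm.symm
  have hm1 : m ≠ 1 := by
    rintro rfl
    rcases hr1 with h | h <;> rw [h] at hm <;> omega
  have hp2 : (m.minFac).Prime := Nat.minFac_prime hm1
  have hd : N.minFac * m.minFac ∣ N := by
    conv_rhs => rw [hm]
    exact Nat.mul_dvd_mul_left _ (Nat.minFac_dvd m)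
  have hr := hpr _ hp2 (dvd_trans (Dvd.intro_left _ rfl) hd)
  have h1010 : ¬ 10 ∣ N := by
    rintro ⟨k, hk⟩
    have hk1 : k ≠ 1 := by
      rintro rfl
      omega
    have hp3 : (k.minFac).Prime := Nat.minFac_prime hk1
    have hkd : k.minFac ∣ k := Nat.minFac_dvd k
    have h := hpr _ hp3 (dvd_trans hkd (Dvd.intro_left _ hk.symm))
    have hd3 : 10 * k.minFac ∣ N := by
      rw [hk]
      exact Nat.mul_dvd_mul_left _ hkd
    rcases h with h | h <;> rw [h] at hd3 <;> norm_num at hd3
    · exact h44 (dvd_trans (by norm_num) hd3)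
    · exact h2525 (dvd_trans (by norm_num) hd3)
  rcases hr1 with h | h <;> rcases hr with h' | h' <;> rw [h, h'] at hd <;> norm_num at hd
  · exact h44 hd
  · exact h1010 hd
  · exact h1010 hd
  · exact h2525 hd

lemma odd_of_lam {n : ℕ} (h : lam n = -1) : Odd (cardFactors n) := by
  unfold lam at h
  exact (neg_one_pow_eq_neg_one_iff_odd (by norm_num)).mp h

lemma even_of_lam {n : ℕ} (h : lam n = 1) : Even (cardFactors n) := by
  unfold lam at h
  exact (neg_one_pow_eq_one_iff_even (by norm_num)).mp h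

lemma odd_iff_of_lam {m n : ℕ} (h : lam m = -lam n) :
    Odd (cardFactors m) ↔ Even (cardFactors n) := by
  rcases lam_val n with h1 | h1
  · rw [h1] at h
    exact ⟨fun _ => even_of_lam h1, fun _ => odd_of_lam h⟩
  · rw [h1] at h
    have h2 : lam m = 1 := by rw [h]; norm_num
    have h3 := odd_of_lam h1
    have h4 := even_of_lam h2
    constructor
    · intro h5
      exact absurd h4 (Nat.not_even_iff_odd.mpr h5)
    · intro h5
      exact absurd h5 (Nat.not_even_iff_odd.mpr h3)

/-- Part (1): parity Goldbach. -/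
theorem main_one {n : ℕ} (h2 : 2 ≤ n) :
    ∃ x : ℕ, x < n ∧ Odd (cardFactors (n - x)) ∧ Odd (cardFactors (n + x)) := by
  rcases lam_val n with h | h
  · have h4 : 4 ≤ n := by
      by_contra hcon
      have : n = 2 ∨ n = 3 := by omega
      rcases this with h1 | h1 <;> subst h1
      · rw [lam_two] at h
        norm_num at h
      · rw [lam_three] at h
        norm_num at h
    obtain ⟨x, _, hx, h1, h2⟩ := main_two h4
    rw [h] at h1 h2
    exact ⟨x, hx, odd_of_lam h1, odd_of_lam h2⟩
  · refine ⟨0, by omega, ?_, ?_⟩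
    · rw [Nat.sub_zero]
      exact odd_of_lam h
    · rw [Nat.add_zero]
      exact odd_of_lam h

/-- Part (3): the mixed pattern. -/
theorem main_three {N : ℕ} (h3 : 3 ≤ N) (h5 : N ≠ 5) (h10 : N ≠ 10) :
    ∃ a b : ℕ, 0 < a ∧ 0 < b ∧ a + b = N ∧ Odd (cardFactors a) ∧ Even (cardFactors b) := by
  have h := not_sbad h3 h5 h10
  unfold SBad at h
  push Not at h
  obtain ⟨a, b, ha, hb, hab, hne⟩ := h
  rcases lam_val a with h1 | h1 <;> rcases lam_val b with h2 | h2
  · exact absurd (h1.trans h2.symm) hne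
  · exact ⟨b, a, hb, ha, by omega, odd_of_lam h2, even_of_lam h1⟩
  · exact ⟨a, b, ha, hb, hab, odd_of_lam h1, even_of_lam h2⟩
  · exact absurd (h1.trans h2.symm) hne

end Pool.Agent.H34PG
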